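import Pool.Agent.W46.MZ.Stm
import Pool.Agent.H447R2.MZ.Tup

set_option autoImplicit false

/-! The crude bound for the dimensions of the spaces of multiple zeta values. -/

namespace Pool.Agent.W804.MZ

open Finset Pool.Agent.W46.MZ Pool.Agent.H447R2.MZ

theorem Z_le (n : ℕ) : Z n ≤ Submodule.span ℚ (Set.range (fun c : Composition n => val c.blocks)) := by
  have h : Z n = Zs n := rfl
  rw [h, Zs_eq, Submodule.span_le]
  rintro x ⟨s, hs, hsum, rfl⟩
  apply Submodule.subset_span
  exact ⟨⟨s, fun {i} hi => hs.1 i hi, hsum⟩, rfl⟩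

instance fin_span (n : ℕ) : Module.Finite ℚ
    (Submodule.span ℚ (Set.range (fun c : Composition n => val c.blocks))) :=
  FiniteDimensional.span_of_finite ℚ (Set.finite_range _)

theorem finrank_le (n : ℕ) : Module.finrank ℚ (Z n) ≤ 2 ^ (n - 1) := by
  calc Module.finrank ℚ (Z n) ≤ Module.finrank ℚ
        (Submodule.span ℚ (Set.range (fun c : Composition n => val c.blocks))) :=
        Submodule.finrank_mono (Z_le n)
    _ ≤ Fintype.card (Composition n) := finrank_range_le_card _
    _ = 2 ^ (n - 1) := composition_card n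

theorem sum_pow (p : ℕ) : ∑ j ∈ range (p + 1), 2 ^ (j - 1) = 2 ^ p := by
  induction p with
  | zero => simp
  | succ p ih =>
    rw [sum_range_succ, ih, Nat.add_sub_cancel, pow_succ]
    ring

theorem BND : S_BND := by
  refine ⟨fun n => ?_, fun p => ?_⟩
  · exact Submodule.finiteDimensional_of_le (Z_le n)
  · unfold Ddim
    calc ∑ j ∈ range (p + 1), Module.finrank ℚ (Z j) ≤ ∑ j ∈ range (p + 1), 2 ^ (j - 1) :=
          sum_le_sum (fun j _ => finrank_le j)
      _ = 2 ^ p := sum_pow p

end Pool.Agent.W804.MZ
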